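import Pool.Agent.W747.LE.Main

/-!
# Lyapunov exponents of locally constant cocycles of positive range are not continuous

Let `p` be Lebesgue measure on `[0,1]` and let `A(x)` be the exchange `R` of the axes if
`x_0 = x_1` and `D = diag(2, 1/2)` otherwise. For `p^ℤ` coincidences do not occur, the product
`A^n(x)` is `D^n` and the exponents are `± log 2`. Every basic neighbourhood `V(A,p,γ,Z)` contains
`(A,q)` with `q = (1 - g) p + g δ_z`, `z ∈ Z`. For `q^ℤ` one meets `x_n = x_{n+1} = z` with
frequency `g²`; each such event exchanges the two axes, and the two directions compensate each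
other, so that both exponents vanish.
-/

set_option autoImplicit false

open MeasureTheory

namespace Pool.Agent.Results.MP_d98278_an.DiscontinuousExponents

open Pool.Agent.W747.LE

/-- For every `N ≥ 1` there are a locally constant cocycle `A` of range `N` over `ℝ^ℤ` and a
probability measure `p` on `ℝ` with exponents `λ₊(A,p) = log 2` and `λ₋(A,p) = - log 2` such that
every basic neighbourhood `V(A,p,γ,Z)` of `(A,p)` contains a pair `(B,q)` with
`λ₊(B,q) = λ₋(B,q) = 0`. In particular `λ₊` and `λ₋` are both discontinuous at `(A,p)`. -/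
theorem result :
    ∀ N : ℕ, 1 ≤ N → ∃ (A : (ℤ → ℝ) → GL2) (p : ProbabilityMeasure ℝ),
      IsCocycle N A ∧ HasExponents A p (Real.log 2) (-Real.log 2) ∧
      ∀ γ : ℝ, 0 < γ → ∀ Z : Set ℝ, MeasurableSet Z → (p : Measure ℝ) Z = 1 →
        ∃ w ∈ nbhd N A p γ Z, HasExponents w.1 w.2 0 0 :=
  fun N hN => ⟨Pool.Agent.W747.LE.A, Pool.Agent.W747.LE.p, main N hN⟩

end Pool.Agent.Results.MP_d98278_an.DiscontinuousExponents
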